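import Pool.Agent.FRE.Stmts

/-!
Squad FRE, row BSG: the Balog-Szemeredi-Gowers theorem.
-/

set_option autoImplicit false

namespace Pool.Agent.FRE.H36

open scoped Pointwise

/-- the number of the sums is bounded by the square of the number of the differences -/
theorem sms_mul_le (A : Finset ℂ) (hA : A.Nonempty) :
    (sms A : ℝ) * A.card ≤ (((A ×ˢ A).image fun p => p.1 - p.2).card : ℝ) ^ 2 := by
  have h1 := Finset.pluennecke_ruzsa_inequality_nsmul_sub hA A 2
  have h2 : ((2 : ℕ) • A).card = sms A := by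
    rw [two_nsmul]
    rfl
  have h3 : (A - A).card = ((A ×ˢ A).image fun p => p.1 - p.2).card := rfl
  rw [h2, h3] at h1
  have h4 : (sms A : ℝ) ≤
      ((((A ×ˢ A).image fun p => p.1 - p.2).card : ℝ) / A.card) ^ 2 * A.card := by
    have h5 := (NNRat.cast_le (K := ℝ)).2 h1
    push_cast at h5
    exact h5
  have hc : (0 : ℝ) < A.card := by exact_mod_cast hA.card_pos
  calc (sms A : ℝ) * A.card
      ≤ ((((A ×ˢ A).image fun p => p.1 - p.2).card : ℝ) / A.card) ^ 2 * A.card * A.card :=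
        mul_le_mul_of_nonneg_right h4 hc.le
    _ = (((A ×ˢ A).image fun p => p.1 - p.2).card : ℝ) ^ 2 := by
        field_simp

/-- the numerical part -/
theorem num {n a b s D L : ℝ} (hL : 1 ≤ L) (hn : 0 < n) (h1 : n ≤ 2 * (2 * L) * a)
    (h2 : a ≤ 2 * b) (hs0 : 0 ≤ s) (hs : s ≤ 2 * L * n) (hD : 0 ≤ D)
    (h3 : D * (a / 2 * (1 / (64 * L ^ 2) * n) ^ 2) ≤ s ^ 4) :
    D ≤ 4194304 * L ^ 10 * b := by
  have hL0 : 0 < L := by linarith
  have hPA : n ≤ 8 * L * b := by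
    calc n ≤ 2 * (2 * L) * a := h1
      _ ≤ 2 * (2 * L) * (2 * b) := mul_le_mul_of_nonneg_left h2 (by positivity)
      _ = 8 * L * b := by ring
  have hS4 : s ^ 4 ≤ (2 * L * n) ^ 4 := pow_le_pow_left₀ hs0 hs 4
  have k1 := h3.trans hS4
  have k0 : n / (8 * L) ≤ a / 2 := by
    rw [div_le_div_iff₀ (by positivity) (by norm_num)]
    linarith
  have k2 : D * (n / (8 * L) * (1 / (64 * L ^ 2) * n) ^ 2) ≤
      D * (a / 2 * (1 / (64 * L ^ 2) * n) ^ 2) :=
    mul_le_mul_of_nonneg_left (mul_le_mul_of_nonneg_right k0 (by positivity)) hD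
  have k3 : D * (n / (8 * L) * (1 / (64 * L ^ 2) * n) ^ 2) = D * n ^ 3 / (32768 * L ^ 5) := by
    field_simp
    ring
  have k4 : D * n ^ 3 ≤ (2 * L * n) ^ 4 * (32768 * L ^ 5) := by
    rw [k3] at k2
    exact (div_le_iff₀ (by positivity)).1 (k2.trans k1)
  have k5 : D * n ^ 3 ≤ (524288 * L ^ 9 * n) * n ^ 3 := by
    refine k4.trans (le_of_eq ?_)
    ring
  have k6 : D ≤ 524288 * L ^ 9 * n := le_of_mul_le_mul_right k5 (by positivity)
  calc D ≤ 524288 * L ^ 9 * n := k6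
    _ ≤ 524288 * L ^ 9 * (8 * L * b) := mul_le_mul_of_nonneg_left hPA (by positivity)
    _ = 4194304 * L ^ 10 * b := by ring

theorem bsg (hpop : PopStmt) (hgp : Gp2Stmt) (hpa : Pa4Stmt) : BsgStmt := by
  classical
  intro K
  obtain ⟨L, hL1, hLK⟩ : ∃ L : ℝ, 1 ≤ L ∧ K ≤ L := ⟨max K 1, le_max_right _ _, le_max_left _ _⟩
  have hL0 : 0 < L := by linarith
  refine ⟨8 * L + (4194304 * L ^ 10) ^ 2, by positivity, ?_⟩
  intro P hP hE
  have hn : (0 : ℝ) < P.card := by exact_mod_cast hP.card_pos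
  have hE' : (P.card : ℝ) ^ 3 ≤ L * eng P :=
    hE.trans (mul_le_mul_of_nonneg_right hLK (Nat.cast_nonneg _))
  obtain ⟨S, hS1, hS2⟩ := hpop P L hL0 hE'
  obtain ⟨A', hA'P, hA'1, hA'2⟩ := hgp P P (fun a b => a + b ∈ S) (2 * L) (1 / 8) (by linarith)
    (by norm_num) hP hP (by
      refine hS2.trans (le_of_eq ?_)
      refine congrArg (fun u : Finset (ℂ × ℂ) => 2 * L * (u.card : ℝ)) ?_
      ext p
      simp only [Finset.mem_filter])
  have hδ : (1 : ℝ) / 8 / (2 * (2 * L) ^ 2) = 1 / (64 * L ^ 2) := by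
    field_simp
    norm_num
  rw [hδ] at hA'2
  obtain ⟨A'', hA''A', h1, h2⟩ := hpa P S A' (1 / (64 * L ^ 2)) (by positivity) (by
    refine le_trans (le_of_eq ?_) hA'2
    refine congrArg (fun u : Finset (ℂ × ℂ) => (u.card : ℝ)) ?_
    refine Finset.filter_congr fun p _ => ?_
    refine iff_of_eq (congrArg (fun u : Finset ℂ =>
      (u.card : ℝ) < 1 / (64 * L ^ 2) * P.card) ?_)
    ext b
    simp only [Finset.mem_filter])
  have hA'pos : (0 : ℝ) < A'.card := by
    by_contra h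
    have h0 : (A'.card : ℝ) = 0 := le_antisymm (not_lt.1 h) (Nat.cast_nonneg _)
    rw [h0, mul_zero] at hA'1
    linarith
  have h1' : (A'.card : ℝ) ≤ 2 * A''.card := by exact_mod_cast h1
  have hA''pos : (0 : ℝ) < A''.card := by linarith
  have hA''ne : A''.Nonempty := by
    rw [← Finset.card_pos]
    exact_mod_cast hA''pos
  have hPA : (P.card : ℝ) ≤ 8 * L * A''.card := by
    calc (P.card : ℝ) ≤ 2 * (2 * L) * A'.card := hA'1
      _ ≤ 2 * (2 * L) * (2 * A''.card) := mul_le_mul_of_nonneg_left h1' (by positivity)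
      _ = 8 * L * A''.card := by ring
  have hDM := num hL1 hn hA'1 h1' (Nat.cast_nonneg _) hS1 (Nat.cast_nonneg _) h2
  refine ⟨A'', hA''A'.trans hA'P, ?_, ?_⟩
  · refine hPA.trans (mul_le_mul_of_nonneg_right ?_ hA''pos.le)
    have : 0 ≤ (4194304 * L ^ 10) ^ 2 := by positivity
    linarith
  · have k1 := sms_mul_le A'' hA''ne
    have k2 : (sms A'' : ℝ) * A''.card ≤ (4194304 * L ^ 10 * A''.card) ^ 2 :=
      k1.trans (pow_le_pow_left₀ (Nat.cast_nonneg _) hDM 2)
    have k3 : (sms A'' : ℝ) * A''.card ≤ ((4194304 * L ^ 10) ^ 2 * A''.card) * A''.card := by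
      refine k2.trans (le_of_eq ?_)
      ring
    have k4 : (sms A'' : ℝ) ≤ (4194304 * L ^ 10) ^ 2 * A''.card :=
      le_of_mul_le_mul_right k3 hA''pos
    refine k4.trans (mul_le_mul_of_nonneg_right ?_ hA''pos.le)
    linarith

end Pool.Agent.FRE.H36
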